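import Mathlib
import Pool.Agent.W24.CP.SRD

open Filter Topology MeasureTheory

namespace Pool.Agent.Results.MP_bc6037_nt.LinearArguments

open Classical in
/-- The error term `Δ_2` of the (Piltz) divisor problem for `k = 2` at linear arguments, at integers and at
primes. Let `E(x) = Δ_2(x)/x^{1/4}`, `Δ_2(x) = ∑_{n ≤ x} d(n) - x log x - (2γ-1)x` (the residue of
`ζ(s)² x^s/s` at `s = 1` is `x (log x + 2γ - 1)`). There is a law `ν` on `ℝ`, with a density that extends to
an entire function and with full support, such that for all positive integers `a_1, …, a_k` and all integers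
`b_1, …, b_k ≥ 0` the vectors `e_n = (E(a_1 n + b_1), …, E(a_k n + b_k))` have a joint limit law `μ` on
`ℝ^k`, both for `n` running through the integers and for `n = p` running through the primes. All its
one-dimensional marginals are equal to `ν`, the means are `0`, and the covariances are
`∫ x_i x_j dμ = (1/(4π²)) ∑_h d(uh) d(vh) (uvh²)^{-3/4}` if `a_i = dv`, `a_j = du`, `(u, v) = 1`; in particular
the variance of `ν` is `(1/(4π²)) ∑_h d(h)² h^{-3/2}`: the mean of `Δ_2(p)² p^{-1/2}` over the primes `p ≤ N` tends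
to this constant, so that the mean square exponent `1/4` (`β_2 = 1/4`) is also the one along the primes.
Moreover the values are orthogonal to everything multiplicative and additive: for every continuous `f` of at
most quadratic growth `∑_{n ≤ N} g(n) e^{2πiαn} (f(e_n) - ∫ f dμ) = o(N)` uniformly over all real `α` and all
multiplicative `g` with `|g| ≤ 1`, and `∑_{p ≤ N} e^{2πiαp} (f(e_p) - ∫ f dμ) = o(π(N))` uniformly over all real
`α` (so, with `α = j/q`, also over the primes in any residue class). The same holds with the indicator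
function of any set `D` with `μ(∂D) = 0` in place of `f`. -/
theorem result (E : ℝ → ℝ)
    (hE : ∀ x : ℝ, E x = ((∑ j ∈ Finset.Icc 1 ⌊x⌋₊, (j.divisors.card : ℝ)) - x * Real.log x
      - (2 * Real.eulerMascheroniConstant - 1) * x) / x ^ (1 / 4 : ℝ)) :
    ∃ (ν : ProbabilityMeasure ℝ) (G : ℂ → ℂ),
      Differentiable ℂ G ∧ (∀ x : ℝ, 0 ≤ (G x).re ∧ (G x).im = 0) ∧
      (ν : Measure ℝ) = volume.withDensity (fun x : ℝ => ENNReal.ofReal (G x).re) ∧
      (∀ u v : ℝ, u < v → 0 < (ν : Measure ℝ) (Set.Ioo u v)) ∧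
      ∀ (k : ℕ) (a b : Fin k → ℕ), (∀ i, 0 < a i) →
      ∃ μ : ProbabilityMeasure (Fin k → ℝ),
        Integrable (fun x : Fin k → ℝ => ∑ i, x i ^ 2) (μ : Measure (Fin k → ℝ)) ∧
        (∀ i, (μ : Measure (Fin k → ℝ)).map (fun x => x i) = (ν : Measure ℝ)) ∧
        (∀ i, ∫ x, x i ∂(μ : Measure (Fin k → ℝ)) = 0) ∧
        (∀ i j, ∀ u v d : ℕ, a i = d * v → a j = d * u → Nat.Coprime u v →
          Summable (fun h : ℕ => ((u * h).divisors.card : ℝ) * (v * h).divisors.card
            / ((u : ℝ) * v * (h : ℝ) ^ 2) ^ (3 / 4 : ℝ)) ∧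
          ∫ x, x i * x j ∂(μ : Measure (Fin k → ℝ)) =
            (∑' h : ℕ, ((u * h).divisors.card : ℝ) * (v * h).divisors.card
              / ((u : ℝ) * v * (h : ℝ) ^ 2) ^ (3 / 4 : ℝ)) / (4 * Real.pi ^ 2)) ∧
        (∀ f : (Fin k → ℝ) → ℝ, Continuous f → (∃ C : ℝ, ∀ x, |f x| ≤ C * (1 + ∑ i, x i ^ 2)) →
          ∀ η : ℝ, 0 < η → ∃ N₀ : ℕ, ∀ N : ℕ, N₀ ≤ N → ∀ α : ℝ,
            (∀ g : ℕ → ℂ, (∀ n, ‖g n‖ ≤ 1) → (∀ m n : ℕ, Nat.Coprime m n → g (m * n) = g m * g n) →
              ‖∑ n ∈ Finset.Icc 1 N, g n * Complex.exp (2 * Real.pi * Complex.I * (α * n)) *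
                ((f (fun i => E ((a i : ℝ) * n + b i)) - ∫ x, f x ∂(μ : Measure (Fin k → ℝ)) : ℝ) : ℂ)‖
              ≤ η * N) ∧
            ‖∑ p ∈ (Finset.Icc 1 N).filter Nat.Prime, Complex.exp (2 * Real.pi * Complex.I * (α * p)) *
                ((f (fun i => E ((a i : ℝ) * p + b i)) - ∫ x, f x ∂(μ : Measure (Fin k → ℝ)) : ℝ) : ℂ)‖
              ≤ η * ((Finset.Icc 1 N).filter Nat.Prime).card) ∧
        (∀ D : Set (Fin k → ℝ), (μ : Measure (Fin k → ℝ)) (frontier D) = 0 →
          ∀ η : ℝ, 0 < η → ∃ N₀ : ℕ, ∀ N : ℕ, N₀ ≤ N → ∀ α : ℝ,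
            (∀ g : ℕ → ℂ, (∀ n, ‖g n‖ ≤ 1) → (∀ m n : ℕ, Nat.Coprime m n → g (m * n) = g m * g n) →
              ‖∑ n ∈ Finset.Icc 1 N, g n * Complex.exp (2 * Real.pi * Complex.I * (α * n)) *
                (((if (fun i => E ((a i : ℝ) * n + b i)) ∈ D then (1 : ℝ) else 0)
                  - (μ : Measure (Fin k → ℝ)).real D : ℝ) : ℂ)‖ ≤ η * N) ∧
            ‖∑ p ∈ (Finset.Icc 1 N).filter Nat.Prime, Complex.exp (2 * Real.pi * Complex.I * (α * p)) *
                (((if (fun i => E ((a i : ℝ) * p + b i)) ∈ D then (1 : ℝ) else 0)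
                  - (μ : Measure (Fin k → ℝ)).real D : ℝ) : ℂ)‖
              ≤ η * ((Finset.Icc 1 N).filter Nat.Prime).card) := by
  have hEc : E = Pool.Agent.H425R3.JL.Edv := funext hE
  subst hEc
  exact Pool.Agent.W24.CP.SRD.div_lin

end Pool.Agent.Results.MP_bc6037_nt.LinearArguments
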