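import Mathlib
import Pool.Agent.W24.CP.R5

open Filter Topology

namespace Pool.Agent.Results.MP_bc6037_nt.OmegaPrimes

open Classical in
/-- Large values of both signs of the error term `Δ_2(x) = ∑_{n ≤ x} d(n) - x log x - (2γ-1)x` of the (Piltz)
divisor problem for `k = 2` at the primes, and at every linear form in a prime (the residue of `ζ(s)² x^s/s` at
`s = 1` is `x (log x + 2γ - 1)`). With an absolute constant `c₀ > 0`, for every positive integer `a`, every
integer `b ≥ 0` and every `ε > 0`, for all large `N` and both signs `s = ±1`, at least `N^{1-ε}` of the primes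
`p ≤ N` satisfy `s Δ_2(x) ≥ x^{1/4} exp(c₀ (log log N)^{1/4} (log log log N)^{-3/4})`, `x = ap + b`. -/
theorem result : ∃ c₀ : ℝ, 0 < c₀ ∧ ∀ a b : ℕ, 0 < a → ∀ ε : ℝ, 0 < ε →
    ∃ N₀ : ℕ, ∀ N : ℕ, N₀ ≤ N → ∀ s : ℝ, (s = 1 ∨ s = -1) →
      (N : ℝ) ^ (1 - ε) ≤ (((Finset.Icc 1 N).filter (fun p : ℕ => p.Prime ∧
        ((a : ℝ) * p + b) ^ (1 / 4 : ℝ) *
          Real.exp (c₀ * (Real.log (Real.log N)) ^ (1 / 4 : ℝ) *
            (Real.log (Real.log (Real.log N))) ^ (-(3 / 4) : ℝ)) ≤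
          s * ((∑ j ∈ Finset.Icc 1 (a * p + b), (j.divisors.card : ℝ))
            - ((a : ℝ) * p + b) * Real.log ((a : ℝ) * p + b)
            - (2 * Real.eulerMascheroniConstant - 1) * ((a : ℝ) * p + b)))).card : ℝ) :=
  ⟨Pool.Agent.W24.Both.c1, Pool.Agent.W24.Both.c1_pos,
    fun _ b ha _ hε => Pool.Agent.W24.CP.R5.div_primes ha b hε⟩

end Pool.Agent.Results.MP_bc6037_nt.OmegaPrimes
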